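import Pool.Agent.AMO75.Final

/-!
# MP_7e21ba_mp: the critical almost Mathieu spectrum for well approximable frequencies

Let `S α` be the spectrum of the critical almost Mathieu operator with frequency `α` and phase `0` (the hypothesis on `S` is word for
word that of the frozen statement: `E` is in `S α` iff for every `ε > 0` there is a finitely supported `ψ ≠ 0` with
`‖(H - E) ψ‖ < ε ‖ψ‖`).
1. If `0 < α < 1` is a Liouville number with exponent `w > 0` (Mathlib's `LiouvilleWith w α`: for some `C`, `0 < |α - m / n| < C / n ^ w` for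
   infinitely many `n`) then the Hausdorff dimensions of `S α` and of `S (G α)`, `G` the Gauss map, are at most `4 / w`.
2. `dimH (S (G α)) = dimH (S α) = 0` for every Liouville number `α` in `(0, 1)`.
-/

set_option autoImplicit false

open Real

namespace Pool.Agent.Results.MP_7e21ba_mp.LiouvilleDim

theorem result :
    ∀ S : ℝ → Set ℝ,
      (∀ (β E : ℝ), E ∈ S β ↔
        ∀ ε : ℝ, 0 < ε → ∃ N : ℕ, ∃ ψ : ℤ → ℂ,
          (∀ n : ℤ, (N : ℤ) < |n| → ψ n = 0) ∧ (∃ n : ℤ, ψ n ≠ 0) ∧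
          ∑ n ∈ Finset.Icc (-(N : ℤ) - 1) ((N : ℤ) + 1),
              ‖ψ (n + 1) + ψ (n - 1)
                + (((2 * Real.cos (2 * Real.pi * ((n : ℝ) * β)) - E : ℝ)) : ℂ) * ψ n‖ ^ 2
            < ε ^ 2 * ∑ n ∈ Finset.Icc (-(N : ℤ)) (N : ℤ), ‖ψ n‖ ^ 2) →
      (∀ α w : ℝ, 0 < α → α < 1 → 0 < w → LiouvilleWith w α →
        dimH (S α) ≤ ENNReal.ofReal (4 / w) ∧ dimH (S (Int.fract α⁻¹)) ≤ ENNReal.ofReal (4 / w)) ∧
      (∀ α : ℝ, 0 < α → α < 1 → Liouville α →
        dimH (S (Int.fract α⁻¹)) = dimH (S α) ∧ dimH (S α) = 0) := by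
  intro S hS
  have hSp : ∀ β, S β = AMO75.Sp (AMO75.lin β 0) := by
    intro β
    ext E
    rw [hS β E, AMO75.conv β E]
  refine ⟨?_, ?_⟩
  · intro α w h0 h1 hw h
    rw [hSp, hSp]
    refine ⟨AMO75.dim_le α w hw h, ?_⟩
    rcases le_or_gt w 1 with hw1 | hw1
    · refine (AMO75.dim_le_one _).trans ?_
      rw [← ENNReal.ofReal_one]
      apply ENNReal.ofReal_le_ofReal
      rw [le_div_iff₀ hw]
      linarith
    · exact AMO75.dim_le _ w hw (AMO75.liouvilleWith_gauss α w h0 h1 hw1.le h)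
  · intro α h0 h1 h
    have hG := AMO75.liouville_gauss α h h0 h1
    rw [hSp, hSp, AMO75.dim_liouville α h, AMO75.dim_liouville _ hG]
    exact ⟨rfl, rfl⟩

end Pool.Agent.Results.MP_7e21ba_mp.LiouvilleDim
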